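import Mathlib
import Pool.Agent.H.MP_5bed1d_al.Defs

namespace Pool.Agent.Results.MP_79490a_al.NoId

open Pool.Agent.H.MP_5bed1d_al.Defs

universe u

/-- lattice terms -/
inductive LT
  | var (n : ℕ)
  | inf (p q : LT)
  | sup (p q : LT)

/-- value of a lattice term, with i as meet and s as join -/
def LT.ev {α : Type u} (i s : α → α → α) (v : ℕ → α) : LT → α
  | .var n => v n
  | .inf p q => i (p.ev i s v) (q.ev i s v)
  | .sup p q => s (p.ev i s v) (q.ev i s v)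

abbrev E {α : Type u} [Lattice α] (v : ℕ → α) (p : LT) : α := p.ev (· ⊔ ·) (· ⊓ ·) v

structure Rep (L : Type u) [Lattice L] where
  X : Type
  c : Countable X
  r : L → Setoid X
  h : ∀ a b x y, r (a ⊓ b) x y ↔ r a x y ∧ r b x y

variable {L : Type u} [Lattice L]

lemma Rep.mono (R : Rep L) {a b : L} (h : a ≤ b) : R.r a ≤ R.r b := fun x y hxy => by
  rw [← inf_eq_left.2 h, R.h] at hxy
  exact hxy.2

lemma Rep.up (R : Rep L) (v : ℕ → L) (p : LT) : E (R.r ∘ v) p ≤ R.r (E v p) := by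
  induction p with
  | var n => exact le_rfl
  | inf p q a b => exact sup_le (a.trans (R.mono le_sup_left)) (b.trans (R.mono le_sup_right))
  | sup p q a b => exact fun x y h => (R.h _ _ _ _).2 ⟨a h.1, b h.2⟩

def Ext (R S : Rep L) (e : R.X → S.X) : Prop := ∀ c x y, S.r c (e x) (e y) ↔ R.r c x y

lemma Ext.mono {R S : Rep L} {e} (h : Ext R S e) (v : ℕ → L) (p : LT) :
    E (R.r ∘ v) p ≤ (E (S.r ∘ v) p).comap e := by
  induction p with
  | var n => exact fun x y hxy => (h _ _ _).2 hxy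
  | inf p q a b =>
    exact sup_le (fun x y h => (le_sup_left (a := E (S.r ∘ v) p)) (a h))
      (fun x y h => (le_sup_right (b := E (S.r ∘ v) q)) (b h))
  | sup p q a b => exact fun x y h => ⟨a h.1, b h.2⟩

inductive T | a | b | c
  deriving DecidableEq, Fintype

def rel {X : Type} (ρ : Setoid X) (s t : X) (A B : Prop) : X ⊕ T → X ⊕ T → Prop
  | .inl x, .inl y => ρ x y
  | .inl x, .inr .a | .inr .a, .inl x => ρ x s ∧ A
  | .inl x, .inr .b | .inr .b, .inl x => ρ x s ∧ A ∧ B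
  | .inl x, .inr .c | .inr .c, .inl x => ρ x t ∧ B
  | .inr .a, .inr .a | .inr .b, .inr .b | .inr .c, .inr .c => True
  | .inr .a, .inr .b | .inr .b, .inr .a => B
  | .inr .c, .inr .b | .inr .b, .inr .c => A
  | .inr .a, .inr .c | .inr .c, .inr .a => A ∧ B

lemma rel_eq {X : Type} (ρ : Setoid X) (s t : X) (A B : Prop) (h : A → B → ρ s t) :
    Equivalence (rel ρ s t A B) := by
  simp only [← Quotient.eq''] at h
  refine ⟨?_, ?_, ?_⟩
  · rintro (x | _ | _ | _) <;> simp [rel]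
  · rintro (x | _ | _ | _) (y | _ | _ | _) <;> simp only [rel, ← Quotient.eq''] <;> grind
  · rintro (x | _ | _ | _) (y | _ | _ | _) (z | _ | _ | _) <;> simp only [rel, ← Quotient.eq''] <;>
      grind

def step (R : Rep L) (s t : R.X) (a b : L) (h : R.r (a ⊔ b) s t) : Rep L where
  X := R.X ⊕ T
  c := by have := R.c; infer_instance
  r c := ⟨rel (R.r c) s t (a ≤ c) (b ≤ c), rel_eq _ _ _ _ _ fun h1 h2 => R.mono (sup_le h1 h2) h⟩
  h c d := by
    show ∀ x y, rel _ _ _ _ _ x y ↔ rel _ _ _ _ _ x y ∧ rel _ _ _ _ _ x y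
    rintro (x | _ | _ | _) (y | _ | _ | _) <;> simp only [rel, R.h, le_inf_iff] <;> tauto

lemma ext (v : ℕ → L) (p : LT) : ∀ (R : Rep L) (s t : R.X), R.r (E v p) s t →
    ∃ S e, Ext R S e ∧ E (S.r ∘ v) p (e s) (e t) := by
  induction p with
  | var n => exact fun R s t h => ⟨R, id, fun _ _ _ => Iff.rfl, h⟩
  | sup p q a b =>
    intro R s t h
    obtain ⟨h1, h2⟩ := (R.h _ _ _ _).1 h
    obtain ⟨S, e, a1, a2⟩ := a R s t h1
    obtain ⟨U, f, b1, b2⟩ := b S _ _ ((a1 _ _ _).2 h2)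
    exact ⟨U, f ∘ e, fun c x y => (b1 _ _ _).trans (a1 _ _ _), b1.mono v p a2, b2⟩
  | inf p q a b =>
    intro R s t h
    let R0 := step R s t _ _ h
    obtain ⟨S1, e1, a1, c1⟩ := a R0 (.inl s) (.inr .a) ⟨(R.r _).refl s, le_rfl⟩
    obtain ⟨S2, e2, a2, c2⟩ := b S1 (e1 (.inr .a)) (e1 (.inr .b)) ((a1 _ _ _).2 le_rfl)
    obtain ⟨S3, e3, a3, c3⟩ := a S2 (e2 (e1 (.inr .b))) (e2 (e1 (.inr .c)))
      ((a2 _ _ _).2 ((a1 _ _ _).2 le_rfl))
    obtain ⟨S4, e4, a4, c4⟩ := b S3 (e3 (e2 (e1 (.inr .c)))) (e3 (e2 (e1 (.inl t))))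
      ((a3 _ _ _).2 ((a2 _ _ _).2 ((a1 _ _ _).2 ⟨(R.r _).refl t, le_rfl⟩)))
    refine ⟨S4, fun x => e4 (e3 (e2 (e1 (.inl x)))), fun c x y =>
      (a4 _ _ _).trans ((a3 _ _ _).trans ((a2 _ _ _).trans (a1 _ _ _))), ?_⟩
    have l : E (S4.r ∘ v) p ≤ E (S4.r ∘ v) (.inf p q) := le_sup_left
    have r : E (S4.r ∘ v) q ≤ E (S4.r ∘ v) (.inf p q) := le_sup_right
    exact Setoid.trans' _ (l (a4.mono v p (a3.mono v p (a2.mono v p c1))))
      (Setoid.trans' _ (r (a4.mono v q (a3.mono v q c2)))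
      (Setoid.trans' _ (l (a4.mono v p c3)) (r c4)))

theorem whit (p q : LT) (h : ∀ (X : Type) [Countable X] [Nonempty X] (θ : ℕ → Setoid X),
    E θ p ≤ E θ q) (v : ℕ → L) : E v p ≤ E v q := by
  let R : Rep L := ⟨Bool, inferInstance, fun c => ⟨fun x y => x = y ∨ E v p ≤ c,
    ⟨fun _ => Or.inl rfl, by grind, by grind⟩⟩, fun a b x y => by
      show _ ∨ _ ↔ (_ ∨ _) ∧ (_ ∨ _)
      rw [le_inf_iff]; tauto⟩
  obtain ⟨S, e, h1, h2⟩ := ext v p R true false (Or.inr le_rfl)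
  have := S.c
  have : Nonempty S.X := ⟨e true⟩
  exact ((h1 _ _ _).1 (S.up v q (h S.X _ h2))).resolve_left (by simp)

inductive C (Y : Type) | o | b | w (k : ℕ) | c (y : Y)

def C.mul {Y : Type} (g : ℕ → Y) : C Y → C Y → C Y
  | .w 0, .w (k + 1) => .c (g k)
  | .b, .w k => .w (k + 1)
  | _, _ => .o

def C.map {Y Z : Type} (f : Y → Z) : C Y → C Z
  | .o => .o
  | .b => .b
  | .w k => .w k
  | .c y => .c (f y)

def F {Y : Type} (g : ℕ → Y) : Alg := ⟨C Y, C.mul g, .o⟩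

lemma map_mul {Y Z : Type} (f : Y → Z) (g : ℕ → Y) (x y : C Y) :
    C.map f (C.mul g x y) = C.mul (f ∘ g) (C.map f x) (C.map f y) := by
  rcases x with _ | _ | (_ | k) | _ <;> rcases y with _ | _ | (_ | l) | _ <;> rfl

lemma mul3 {Y : Type} (g : ℕ → Y) (x y z : C Y) : C.mul g (C.mul g x y) z = .o := by
  rcases x with _ | _ | (_ | k) | _ <;> rcases y with _ | _ | (_ | l) | _ <;> rfl

lemma F_IZ {Y : Type} (g : ℕ → Y) : F g ∈ IZ :=
  ⟨fun x y z => (mul3 g x y z).trans (mul3 g _ _ _).symm, mul3 g .o .o .o⟩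

def pw : ℕ → Tm
  | 0 => .imp (.var 1) (.var 0)
  | k + 1 => .imp (.var 1) (pw k)

def tm (k : ℕ) : Tm := .imp (.var 0) (pw k)

open Classical in
lemma tm_ev {Y : Type} (g : ℕ → Y) (v : ℕ → C Y) (k : ℕ) : (tm k).ev (F g) v =
    (if v 0 = C.w 0 ∧ v 1 = C.b then C.c (g k) else C.o : C Y) := by
  have : ∀ k, (pw k).ev (F g) v = (C.mul g (v 1))^[k + 1] (v 0) := by
    intro k
    induction k with
    | zero => rfl
    | succ k ih => rw [Function.iterate_succ_apply', ← ih]; rfl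
  show C.mul g (v 0) _ = _
  rw [this]
  generalize v 0 = x
  generalize v 1 = y
  have h1 : ∀ k l, (C.mul g .b)^[k] (.w l) = .w (l + k) := by
    intro k
    induction k with
    | zero => intro l; rfl
    | succ k ih => intro l; rw [Function.iterate_succ_apply', ih]; rfl
  have h2 : ∀ y k, (C.mul g y)^[k] .o = .o := fun y k =>
    Function.iterate_fixed (by rcases y with _ | _ | (_ | k) | _ <;> rfl) k
  rcases x with _ | _ | (_ | l) | _ <;> rcases y with _ | _ | (_ | m) | _ <;>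
    simp [C.mul, h2, h1]

theorem eqv (p q : LT) (h : ∀ v : ℕ → Set Alg, (∀ n, IsVar (v n) ∧ v n ⊆ IZ) →
    p.ev (· ∩ ·) join v ⊆ q.ev (· ∩ ·) join v) (X : Type) [Countable X] [Nonempty X]
    (θ : ℕ → Setoid X) : E θ q ≤ E θ p := by
  obtain ⟨g, hg⟩ := exists_surjective_nat X
  choose e he using hg
  let G : Setoid X → Alg := fun ρ => F (fun k => (Quotient.mk ρ (g k)))
  have sat : ∀ ρ x y, Sat (G ρ) (tm (e x)) (tm (e y)) ↔ ρ x y := by
    intro ρ x y
    constructor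
    · intro h
      have := h (fun n => if n = 0 then C.w 0 else C.b)
      simp only [G] at this
      rw [tm_ev, tm_ev] at this
      simp only [he, if_true, one_ne_zero, if_false, and_self] at this
      exact Quotient.exact (C.c.inj this)
    · intro h v
      simp only [G]
      rw [tm_ev, tm_ev, he, he, Quotient.sound h]
  let v : ℕ → Set Alg := fun n => join {G (θ n)} ∅
  have hv : ∀ n, IsVar (v n) ∧ v n ⊆ IZ := fun n =>
    ⟨join_var _ _, join_le IZ_var (by rintro _ rfl; exact F_IZ _) (by simp)⟩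
  have var : ∀ p : LT, IsVar (p.ev (· ∩ ·) join v) := by
    intro p
    induction p with
    | var n => exact (hv n).1
    | inf p q a b => exact a.inter b
    | sup p q a b => exact join_var _ _
  have hom : ∀ (ρ σ : Setoid X) (h : ρ ≤ σ), ∃ f : (G ρ).A → (G σ).A,
      (∀ a b, f ((G ρ).f a b) = (G σ).f (f a) (f b)) ∧ f (G ρ).o = (G σ).o ∧
      f = C.map (Quotient.map' id h) := fun ρ σ h =>
    ⟨C.map (Quotient.map' id h), map_mul _ (fun k => (Quotient.mk ρ (g k))), rfl, rfl⟩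
  have quo : ∀ (ρ σ : Setoid X) (h : ρ ≤ σ) s t, Sat (G ρ) s t → Sat (G σ) s t := by
    intro ρ σ h s t H
    obtain ⟨f, h1, h2, rfl⟩ := hom ρ σ h
    refine H.quot _ h1 h2 ?_
    rintro (_ | _ | k | ⟨⟨x⟩⟩)
    exacts [⟨.o, rfl⟩, ⟨.b, rfl⟩, ⟨.w k, rfl⟩, ⟨.c (Quotient.mk _ x), rfl⟩]
  have A : ∀ p : LT, G (E θ p) ∈ p.ev (· ∩ ·) join v := by
    intro p
    induction p with
    | var n => exact le_join_left _ _ rfl
    | inf p q a b =>
      exact ⟨(var p).mem fun s t H => quo _ _ le_sup_left s t (H _ a),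
        (var q).mem fun s t H => quo _ _ le_sup_right s t (H _ b)⟩
    | sup p q a b =>
      refine mem_join.2 fun s t H1 H2 => ?_
      obtain ⟨f, h1, h2, rfl⟩ := hom (E θ p ⊓ E θ q) _ inf_le_left
      obtain ⟨f, k1, k2, rfl⟩ := hom (E θ p ⊓ E θ q) _ inf_le_right
      refine Sat.sub _ h1 h2 _ k1 k2 ?_ (H1 _ a) (H2 _ b)
      rintro (_ | _ | k | ⟨⟨x⟩⟩) (_ | _ | l | ⟨⟨y⟩⟩) u1 u2 <;>
        first | rfl | (exfalso; simp [C.map] at u1; done) | skip
      · cases u1; rfl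
      · exact congrArg C.c (Quotient.sound (s := E θ p ⊓ E θ q) ⟨Quotient.exact (C.c.inj u1),
          Quotient.exact (C.c.inj u2)⟩)
  have B : ∀ p : LT, ∀ M ∈ p.ev (· ∩ ·) join v, E θ p ≤
      ⟨fun x y => Sat M (tm (e x)) (tm (e y)), fun _ _ => rfl, fun h v => (h v).symm,
        fun h k v => (h v).trans (k v)⟩ := by
    intro p
    induction p with
    | var n =>
      intro M hM x y h
      exact mem_join.1 hM _ _ (by rintro _ rfl; exact (sat _ _ _).2 h) (by simp)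
    | inf p q a b => exact fun M hM => sup_le (a M hM.1) (b M hM.2)
    | sup p q a b =>
      exact fun M hM x y h => mem_join.1 hM _ _ (fun N hN => a N hN h.1) (fun N hN => b N hN h.2)
  exact fun x y hxy => (sat _ _ _).1 (B q _ (h v hv (A p)) hxy)

theorem result (p q : LT) (h : ∀ v : ℕ → Set Alg, (∀ n, IsVar (v n) ∧ v n ⊆ IZ) →
    p.ev (· ∩ ·) join v = q.ev (· ∩ ·) join v) (L : Type u) [Lattice L] (v : ℕ → L) :
    p.ev (· ⊓ ·) (· ⊔ ·) v = q.ev (· ⊓ ·) (· ⊔ ·) v :=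
  le_antisymm (whit (L := Lᵒᵈ) q p (eqv p q fun v hv => (h v hv).le) v)
    (whit (L := Lᵒᵈ) p q (eqv q p fun v hv => (h v hv).ge) v)

end Pool.Agent.Results.MP_79490a_al.NoId
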